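import Pool.Agent.H17.Ray5

namespace Pool.Agent.Results.MP_a0fd6e_gt.Yes

open Pool.Agent.H17.Ray Set Filter Topology

universe u

theorem result (T : Type u) [PartialOrder T] (hT : IsOrderTree T) (O : Set (RaySp True T))
    (hO : IsOpen O) : ∃ (T' : Type u) (_ : PartialOrder T'), IsOrderTree T' ∧
      ∃ f : O → RaySp True T', Continuous f ∧ Function.Bijective f := by
  obtain ⟨T', _, hT', f, hf, hf'⟩ := open_qr hT hO
  choose g hg using fun x : O => ex_ray (hf'.1 x.2)
  refine ⟨T', inferInstance, hT', g, ?_, fun x y e => ?_, fun R => ?_⟩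
  · refine continuous_induced_rng.2 (continuous_pi fun t => continuous_iff_continuousAt.2 fun x => ?_)
    refine tendsto_nhds_of_eventually_eq ?_
    have h1 := hf t x.1 x.2
    rw [← map_nhds_subtype_val, eventually_map] at h1
    filter_upwards [h1] with y hy
    rw [← hg, ← hg] at hy
    exact Bool.eq_iff_iff.2 hy
  · exact Subtype.ext (hf'.2.1 x.2 y.2 (by rw [← hg, ← hg, e]))
  · obtain ⟨x, hx, e⟩ := hf'.2.2 (S_ray R)
    exact ⟨⟨x, hx⟩, S_inj ((hg _).trans e)⟩

end Pool.Agent.Results.MP_a0fd6e_gt.Yes
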